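import Mathlib
import Pool.Agent.H309R2.AP3.Check

/-!
Definitions for large sets without three-term progressions in the integers.

A finite subset `S` of an abelian group carries a potential bounded by `B` when there is a function
`g` with values in `0..B` such that `2 g(y) < g(x) + g(z)` for every nontrivial progression
`x, y, z` in `S`.  The recursion over the dimension for families of peelable sets is repeated here
for such sets, in a product of cyclic groups of coprime odd orders.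
-/

namespace Pool.Agent.W812.RB

open Finset
open Pool.Agent.H309R2.AP3 (opK opZ opY kz)

/-- Doubling is injective. -/
def TwoInj (G : Type*) [AddCommGroup G] : Prop := ∀ x z : G, x + x = z + z → x = z

/-- `S` carries a potential bounded by `B`. -/
def Pot {G : Type*} [AddCommGroup G] (S : Finset G) (B : ℕ) : Prop :=
  ∃ g : G → ℕ, (∀ x ∈ S, g x ≤ B) ∧
    ∀ x ∈ S, ∀ z ∈ S, ∀ y ∈ S, x + z = y + y → x ≠ z → 2 * g y < g x + g z

section defs
variable {G : Type*} [AddCommGroup G] [Fintype G] [DecidableEq G] {p : ℕ} [NeZero p]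

/-- Gluing of slices: the first coordinate is read after the shift `s`. -/
def glue (F : ℕ → Finset G) (s : ZMod p) : Finset (ZMod p × G) :=
  univ.filter fun x => x.2 ∈ F ((x.1 + s).val)

/-- Doubling. -/
def dbl (S : Finset G) : Finset G := S.image fun x => x + x

/-- Halving. -/
def half (S : Finset G) : Finset G := univ.filter fun x => x + x ∈ S

end defs

/-- Two families of sets with potential, with `K i₁ + K i₂` disjoint from `Z j` when
`i₁ + i₂ ≤ j`. -/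
structure Fam (G : Type*) [AddCommGroup G] (B : ℕ) where
  K : ℕ → Finset G
  Z : ℕ → Finset G
  hK : ∀ i, Pot (K i) B
  hZ : ∀ j, Pot (Z j) B
  h : ∀ i₁ i₂ j, i₁ + i₂ ≤ j → ∀ x ∈ K i₁, ∀ z ∈ K i₂, x + z ∉ Z j

/-- Parameters of the recursion; the new modulus is `2 * P + 1`.  Each cell of length `q` is used
only in its first `r` places, so that different cells have distance at least `L`. -/
structure Par where
  P : ℕ
  q : ℕ
  H : ℕ
  e : ℕ
  r : ℕ
  L : ℕ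
  t : ℕ → ℕ
  nu : ℕ → ℕ
  hP : P + 1 = H * q + e
  hr : r + L ≤ q
  hL : 1 ≤ L
  hH : 2 ≤ H
  hnu : ∀ b ≤ H, ∀ a₁ a₂, a₁ + a₂ ≤ b → t a₁ + t a₂ ≤ nu b

section
variable {G : Type*} [AddCommGroup G] [Fintype G] [DecidableEq G] {p : ℕ} [NeZero p]
  (π : Par) {B : ℕ} (F : Fam G B)

/-- Slices of the new `K i`. -/
def sK (i u : ℕ) : Finset G :=
  if u < π.H * π.q then
    (if u % π.q < π.r ∧ u / π.q < i then F.K (π.t (u / π.q)) else ∅)
  else if u < π.P + 1 then ∅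
  else (if (u - (π.P + 1)) % π.q < π.r ∧ (u - (π.P + 1)) / π.q < π.H / 2 ∧
      π.H + (u - (π.P + 1)) / π.q < i then
    half (F.Z (π.nu (2 * ((u - (π.P + 1)) / π.q) + 1))) else ∅)

/-- Slices of the new `Z (H + m)`. -/
def sZ (m u : ℕ) : Finset G :=
  if u < (π.H - m) * π.q then
    (if u % π.q < π.r then dbl (F.K (π.t (u / π.q + m / 2))) else ∅)
  else if u < π.P + 1 then
    (if (π.H - m) * π.q + π.e ≤ u ∧ (u - ((π.H - m) * π.q + π.e)) % π.q < π.r then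
      F.Z (π.nu ((u - ((π.H - m) * π.q + π.e)) / π.q)) else ∅)
  else (if (u - (π.P + 1)) % π.q < π.r ∧ (u - (π.P + 1)) / π.q < (π.H - m) / 2 then
    F.Z (π.nu (2 * ((u - (π.P + 1)) / π.q) + 1 + 2 * (m / 2))) else ∅)

/-- Slices of the new `Z (2 * H + m)`. -/
def sY (m u : ℕ) : Finset G :=
  if u < π.H * π.q ∧ u % π.q < π.r ∧ m ≤ u / π.q then F.Z (π.nu (u / π.q)) else ∅

/-- The new `K`. -/
def nK (i : ℕ) : Finset (ZMod p × G) := glue (sK π F i) 0

/-- The new `Z`. -/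
def nZ (j : ℕ) : Finset (ZMod p × G) :=
  if j ≤ 2 * π.H then
    glue (sZ π F (j - π.H)) (((π.H - (j - π.H)) * π.q + π.e : ℕ) : ZMod p)
  else glue (sY π F (j - 2 * π.H)) 0

end

/-- The families exist in `ZMod M` with potentials bounded by `B` and cardinalities at least `w`
times the iterates of the size operator. -/
def HasFam (H : ℕ) (t nu : ℕ → ℕ) (n M B w : ℕ) : Prop :=
  ∃ F : Fam (ZMod M) B, (∀ i, w * (kz H t nu n).1 i ≤ (F.K i).card) ∧
    ∀ j, w * (kz H t nu n).2 j ≤ (F.Z j).card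

/-- In every block of `d` pairwise coprime odd moduli between `p₀` and `X` there is a set of
density at least `c ^ d` with a potential bounded by `C * X ^ 2`. -/
def BlockDensity (c : ℝ) : Prop :=
  ∃ d C p₀ : ℕ, 1 ≤ d ∧ ∀ (X : ℕ) (f : ℕ → ℕ), (∀ i < d, Odd (f i) ∧ p₀ ≤ f i ∧ f i ≤ X) →
    (∀ i < d, ∀ j < d, i ≠ j → (f i).Coprime (f j)) →
    ∃ S : Finset (ZMod (∏ i ∈ range d, f i)), Pot S (C * X ^ 2) ∧
      c ^ d * ((∏ i ∈ range d, f i : ℕ) : ℝ) ≤ S.card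

/-! Statements. -/

/-- Gluing of sets with potential. -/
def GlueStm : Prop :=
  ∀ (G : Type) [AddCommGroup G] [Fintype G] [DecidableEq G] (p : ℕ) [NeZero p] (ι : Type)
    (F : ℕ → Finset G) (s : ZMod p) (lab : ℕ → ι) (Sl : ι → Finset G) (L B K : ℕ),
    TwoInj G → (∀ u < p, F u ⊆ Sl (lab u)) → (∀ a, Pot (Sl a) B) →
    (∀ u₁ u₂, u₁ < p → u₂ < p → (F u₁).Nonempty → (F u₂).Nonempty → lab u₁ ≠ lab u₂ →
      u₁ + L ≤ u₂ ∨ u₂ + L ≤ u₁) →
    1 ≤ K → L ≤ p → 4 * B + 2 ≤ K * L ^ 2 →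
    (∀ u₁ u₂ u₃, u₁ < p → u₂ < p → u₃ < p → u₁ + u₂ + p = 2 * u₃ →
      ∀ x ∈ F u₁, ∀ z ∈ F u₂, ∀ y ∈ F u₃, x + z ≠ y + y) →
    Pot (glue F s) (K * p ^ 2 + B)

/-- Cardinality of a glued set. -/
def CardGlueStm : Prop :=
  ∀ (G : Type) [AddCommGroup G] [Fintype G] [DecidableEq G] (p : ℕ) [NeZero p]
    (F : ℕ → Finset G) (s : ZMod p), (glue F s).card = ∑ u ∈ range p, (F u).card

/-- Halving and doubling. -/
def HalfStm : Prop :=
  ∀ (G : Type) [AddCommGroup G] [Fintype G] [DecidableEq G] (S : Finset G) (B : ℕ), TwoInj G →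
    (half S).card = S.card ∧ (dbl S).card = S.card ∧
      (Pot S B → Pot (half S) B ∧ Pot (dbl S) B)

/-- The new sets have potentials. -/
def StepPotStm : Prop :=
  ∀ (G : Type) [AddCommGroup G] [Fintype G] [DecidableEq G] (p : ℕ) [NeZero p] (π : Par)
    (B A : ℕ) (F : Fam G B), TwoInj G → p = 2 * π.P + 1 → 4 * B + 2 ≤ A * π.L ^ 2 →
    (∀ i, Pot (nK (p := p) π F i) (A * p ^ 2 + B)) ∧
      ∀ j, Pot (nZ (p := p) π F j) (A * p ^ 2 + B)

/-- The new sets satisfy the disjointness relation. -/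
def StepRelStm : Prop :=
  ∀ (G : Type) [AddCommGroup G] [Fintype G] [DecidableEq G] (p : ℕ) [NeZero p] (π : Par)
    (B : ℕ) (F : Fam G B), p = 2 * π.P + 1 →
    ∀ i₁ i₂ j, i₁ + i₂ ≤ j → ∀ x ∈ nK (p := p) π F i₁, ∀ z ∈ nK (p := p) π F i₂,
      x + z ∉ nZ (p := p) π F j

/-- Cardinalities of the new sets. -/
def StepCardStm : Prop :=
  ∀ (G : Type) [AddCommGroup G] [Fintype G] [DecidableEq G] (p : ℕ) [NeZero p] (π : Par)
    (B : ℕ) (F : Fam G B), TwoInj G → p = 2 * π.P + 1 →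
    (∀ i, π.r * opK π.H π.t π.nu (fun i => (F.K i).card) (fun j => (F.Z j).card) i ≤
      (nK (p := p) π F i).card) ∧
    (∀ j, j ≤ 2 * π.H →
      π.r * opZ π.H π.t π.nu (fun i => (F.K i).card) (fun j => (F.Z j).card) (j - π.H) ≤
        (nZ (p := p) π F j).card) ∧
    ∀ j, ¬ j ≤ 2 * π.H →
      π.r * opY π.H π.nu (fun j => (F.Z j).card) (j - 2 * π.H) ≤ (nZ (p := p) π F j).card

/-- One step of the recursion in `ZMod M`. -/
def HasFamStepStm : Prop :=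
  ∀ (H : ℕ) (t nu : ℕ → ℕ) (n M B w p q e r L A : ℕ), Odd M → Odd p → p.Coprime M → 2 ≤ H →
    (∀ b ≤ H, ∀ a₁ a₂, a₁ + a₂ ≤ b → t a₁ + t a₂ ≤ nu b) → p + 1 = 2 * (H * q + e) →
    r + L ≤ q → 1 ≤ L → 4 * B + 2 ≤ A * L ^ 2 → HasFam H t nu n M B w →
    HasFam H t nu (n + 1) (p * M) (A * p ^ 2 + B) (r * w)

/-- A certificate gives a block density. -/
def BlockStm : Prop :=
  ∀ (H : ℕ) (t nu k z : ℕ → ℕ) (Rn Rd C : ℕ) (c : ℝ), 2 ≤ H →
    Pool.Agent.H309R2.AP3.Cert H t nu k z Rn Rd C → 1 ≤ Rn → 1 ≤ Rd → 0 < c →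
    c < (Rn : ℝ) / (2 * H * Rd) → BlockDensity c

/-- The product of many blocks. -/
def ProdStm : Prop :=
  ∀ c : ℝ, 0 < c → BlockDensity c →
    ∃ d C p₀ : ℕ, 1 ≤ d ∧ ∀ (m X : ℕ) (f : ℕ → ℕ),
      (∀ i < d * m, Odd (f i) ∧ p₀ ≤ f i ∧ f i ≤ X) →
      (∀ i < d * m, ∀ j < d * m, i ≠ j → (f i).Coprime (f j)) →
      ∃ S : Finset (ZMod (∏ i ∈ range (d * m), f i)), Pot S (m * C * X ^ 2) ∧
        c ^ (d * m) * ((∏ i ∈ range (d * m), f i : ℕ) : ℝ) ≤ S.card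

/-- From a set with potential in a cyclic group of odd order to integers. -/
def IntegerStm : Prop :=
  ∀ (M B a : ℕ) (S : Finset (ZMod M)), Odd M → Pot S B →
    S.card * rothNumberNat a ≤ (B + 1) * rothNumberNat (2 * M * a)

/-- Many odd primes between `X / (2 log X)` and `X`. -/
def PrimesStm : Prop :=
  ∃ X₀ : ℕ, ∀ X : ℕ, X₀ ≤ X → ∀ D : ℕ, (D : ℝ) ≤ X / (10 * Real.log X) →
    ∃ f : ℕ → ℕ, (∀ i < D, Nat.Prime (f i) ∧ Odd (f i) ∧ (X : ℝ) / (2 * Real.log X) < f i ∧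
      f i ≤ X) ∧ ∀ i < D, ∀ j < D, i ≠ j → f i ≠ f j

/-- The asymptotic bound. -/
def MainStm : Prop :=
  ∀ c C : ℝ, 0 < c → c < 1 → BlockDensity c → 2 * Real.sqrt (2 * Real.log (1 / c)) < C →
    ∃ N₀ : ℕ, ∀ N : ℕ, N₀ ≤ N →
      (N : ℝ) * Real.exp (-C * Real.sqrt (Real.log N)) ≤ rothNumberNat N

end Pool.Agent.W812.RB
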