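import Mathlib
import Pool.Agent.W812.RB.Stm
import Pool.Agent.W812.RB.Data
import Pool.Agent.W356.RB.Glue
import Pool.Agent.W356.RB.Half
import Pool.Agent.W154.RB.Pot
import Pool.Agent.W417.RB.Rel
import Pool.Agent.W249.RB.Card
import Pool.Agent.W351.RB.HFStep
import Pool.Agent.W338.RB.Block

/-!
The block density `0.5689`.
-/

namespace Pool.Agent.W812.RB

theorem density : BlockDensity 0.5689 := by
  have hP := Pool.Agent.W154.RB.stepPot Pool.Agent.W356.RB.glue Pool.Agent.W356.RB.half
  have hR := Pool.Agent.W417.RB.stepRel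
  have hC := Pool.Agent.W249.RB.stepCard Pool.Agent.W356.RB.half Pool.Agent.W356.RB.cardGlue
  have hB := Pool.Agent.W338.RB.block (Pool.Agent.W351.RB.hasFamStep hP hR hC)
  obtain ⟨t, nu, k, z, C, h⟩ := cert_2048
  exact hB 2048 t nu k z 233022 100 C 0.5689 (by norm_num) h (by norm_num) (by norm_num)
    (by norm_num) (by norm_num)

/-- The numerical constant. -/
theorem const_lt : 2 * Real.sqrt (2 * Real.log (1 / 0.5689)) < 2.1243 := by
  have h1 : Real.log (1 / 0.5689) < 0.56408 := by
    rw [Real.log_lt_iff_lt_exp (by norm_num)]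
    have h2 := Real.sum_le_exp_of_nonneg (x := (0.56408 : ℝ)) (by norm_num) 9
    refine lt_of_lt_of_le ?_ h2
    simp only [Finset.sum_range_succ, Finset.sum_range_zero, Nat.factorial]
    norm_num
  have h3 : Real.sqrt (2 * Real.log (1 / 0.5689)) < 1.06215 := by
    rw [Real.sqrt_lt' (by norm_num)]
    nlinarith
  linarith

end Pool.Agent.W812.RB
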